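import Mathlib

set_option autoImplicit false

/-!
Trivalent graphs with prescribed automorphism group: `v³(G) ≤ n (2 d + 10)`.

For every group element `g` the graph has a rigid gadget on ten vertices and two spines with
`d` vertices each; the spines start at the two terminals of the gadget and are joined at their
ends. The `j`-th vertex of the first spine of `g` is joined to the `j`-th vertex of the second
spine of `g s_j`. Every such edge joins vertices at the same distance from the set of vertices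
which lie on triangles, while the edges of the spines change this distance: so all automorphisms
respect the spines.
-/

namespace Pool.Agent.Results.MP_b549f0_co.TwoPlusEpsilon

/-- Every vertex has exactly three neighbours. -/
def Trivalent {V : Type} (X : SimpleGraph V) : Prop := ∀ v, (X.neighborSet v).ncard = 3

/-- The numbers of vertices of the finite trivalent graphs that represent `G`. -/
def orders (G : Type) [Group G] : Set ℕ :=
  {m | ∃ (V : Type) (_ : Finite V) (X : SimpleGraph V),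
    Trivalent X ∧ Nonempty ((X ≃g X) ≃* G) ∧ Nat.card V = m}

/-- The minimum number of vertices of a finite trivalent graph that represents `G`. -/
noncomputable def v3 (G : Type) [Group G] : ℕ := sInf (orders G)

/-- types of vertices -/
abbrev Ty (n : ℕ) : Type := Fin 10 ⊕ (Fin (n + 1) × Bool)

/-- terminals of the gadget -/
def tm (b : Bool) : Fin 10 := if b then 4 else 3

/-- the gadget; `inr b` is the edge leaving the gadget -/
def tbl : Fin 10 → Fin 3 → Fin 10 ⊕ Bool :=
  ![![.inl 1, .inl 3, .inl 5], ![.inl 0, .inl 2, .inl 5], ![.inl 1, .inl 6, .inl 7],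
    ![.inl 0, .inl 7, .inr false], ![.inl 5, .inl 8, .inr true], ![.inl 0, .inl 1, .inl 4],
    ![.inl 2, .inl 8, .inl 9], ![.inl 2, .inl 3, .inl 9], ![.inl 4, .inl 6, .inl 9],
    ![.inl 6, .inl 7, .inl 8]]

/-- embedding of the local names -/
def emb (n : ℕ) : Fin 10 ⊕ Bool → Ty n := Sum.elim Sum.inl (fun b => Sum.inr (0, b))

/-- previous vertex of the spine -/
def pr {n : ℕ} (j : Fin (n + 1)) (b : Bool) : Ty n :=
  if j.val = 0 then Sum.inl (tm b) else Sum.inr (⟨j.val - 1, by omega⟩, b)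

/-- next vertex of the spine -/
def nx {n : ℕ} (j : Fin (n + 1)) (b : Bool) : Ty n :=
  if h : j.val = n then Sum.inr (j, !b) else Sum.inr (⟨j.val + 1, by omega⟩, b)

/-- types of the three neighbours -/
def nbt {n : ℕ} : Ty n → Fin 3 → Ty n
  | Sum.inl t, i => emb n (tbl t i)
  | Sum.inr (j, b), 0 => pr j b
  | Sum.inr (j, b), 1 => nx j b
  | Sum.inr (j, b), 2 => Sum.inr (j, !b)

/-- the group shift of the three neighbours -/
def sh {G : Type} [Group G] {n : ℕ} (s : Fin (n + 1) → G) : Ty n → Fin 3 → G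
  | Sum.inl _, _ => 1
  | Sum.inr _, 0 => 1
  | Sum.inr _, 1 => 1
  | Sum.inr (j, b), 2 => if b then (s j)⁻¹ else s j

/-- the three neighbours -/
def nb {G : Type} [Group G] {n : ℕ} (s : Fin (n + 1) → G) (v : G × Ty n) (i : Fin 3) :
    G × Ty n := (v.1 * sh s v.2 i, nbt v.2 i)

/-- distance to the triangles -/
def dd {n : ℕ} : Ty n → ℕ
  | Sum.inl t => (![0, 0, 1, 1, 1, 0, 0, 1, 0, 0] : Fin 10 → ℕ) t
  | Sum.inr (j, _) => j.val + 2

lemma tbl_symm (t : Fin 10) (i : Fin 3) (u : Fin 10) (h : tbl t i = Sum.inl u) :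
    ∃ k, tbl u k = Sum.inl t := by
  revert t i u; decide

lemma tbl_inr (t : Fin 10) (i : Fin 3) (b : Bool) (h : tbl t i = Sum.inr b) :
    t = tm b ∧ i = 2 := by
  revert t i b; decide

lemma tbl_tm (b : Bool) : tbl (tm b) 2 = Sum.inr b := by
  revert b; decide

lemma tbl_ne (t : Fin 10) (i : Fin 3) : tbl t i ≠ Sum.inl t := by
  revert t i; decide

lemma tbl_inj (t : Fin 10) : Function.Injective (tbl t) := by
  revert t; decide

lemma emb_inj (n : ℕ) : Function.Injective (emb n) := by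
  rintro (a | a) (b | b) h <;> simp_all [emb]

variable {G : Type} [Group G] {n : ℕ} (s : Fin (n + 1) → G)

lemma nb_symm (v : G × Ty n) (i : Fin 3) : ∃ k, nb s (nb s v i) k = v := by
  obtain ⟨g, t | ⟨j, b⟩⟩ := v
  · rcases h : tbl t i with u | b
    · obtain ⟨k, hk⟩ := tbl_symm t i u h
      refine ⟨k, ?_⟩
      simp [nb, nbt, sh, h, emb, hk]
    · obtain ⟨rfl, rfl⟩ := tbl_inr t i b h
      refine ⟨0, ?_⟩
      simp [nb, nbt, sh, h, emb, pr]
  · fin_cases i
    · by_cases h : j.val = 0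
      · refine ⟨2, ?_⟩
        have : j = 0 := Fin.ext h
        subst this
        simp [nb, nbt, sh, pr, tbl_tm, emb]
      · refine ⟨1, ?_⟩
        have h1 : ¬ (j.val - 1 = n) := by omega
        have h2 : j.val - 1 + 1 = j.val := by omega
        simp [nb, nbt, sh, pr, nx, h, h1, h2]
    · by_cases h : j.val = n
      · refine ⟨1, ?_⟩
        simp [nb, nbt, sh, nx, h]
      · refine ⟨0, ?_⟩
        simp [nb, nbt, sh, pr, nx, h]
    · refine ⟨2, ?_⟩
      cases b <;> simp [nb, nbt, sh]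

lemma nbt_ne (t : Ty n) (i : Fin 3) : nbt t i ≠ t := by
  obtain t | ⟨j, b⟩ := t
  · rcases h : tbl t i with u | b
    · have := tbl_ne t i
      rw [h] at this
      simpa [nbt, h, emb] using fun h' => this (by rw [h'])
    · simp [nbt, h, emb]
  · fin_cases i
    · by_cases h : j.val = 0
      · simp [nbt, pr, h]
      · simp only [nbt, pr, h, if_false]
        intro h'
        simp only [Sum.inr.injEq, Prod.mk.injEq, Fin.ext_iff] at h'
        omega
    · by_cases h : j.val = n
      · simp [nbt, nx, h]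
      · simp only [nbt, nx, h, dite_false]
        intro h'
        simp only [Sum.inr.injEq, Prod.mk.injEq, Fin.ext_iff] at h'
        omega
    · simp [nbt]

/-- the graph -/
def X : SimpleGraph (G × Ty n) where
  Adj v w := ∃ i, nb s v i = w
  symm := ⟨by
    rintro v w ⟨i, rfl⟩
    exact nb_symm s v i⟩
  loopless := ⟨by
    rintro v ⟨i, h⟩
    exact nbt_ne v.2 i (congrArg Prod.snd h)⟩

lemma adj_iff (v w : G × Ty n) : (X s).Adj v w ↔ ∃ i, nb s v i = w := Iff.rfl

lemma pr_ne_nx (j : Fin (n + 1)) (b : Bool) : pr j b ≠ nx j b := by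
  unfold pr nx
  split_ifs with h1 h2 h2
  · simp
  · simp
  · intro h
    simp only [Sum.inr.injEq, Prod.mk.injEq] at h
    exact absurd h.2 (by simp)
  · intro h
    simp only [Sum.inr.injEq, Prod.mk.injEq, Fin.mk.injEq] at h
    omega

lemma pr_ne_po (j : Fin (n + 1)) (b : Bool) : pr j b ≠ Sum.inr (j, !b) := by
  unfold pr
  split_ifs with h1
  · simp
  · intro h
    simp only [Sum.inr.injEq, Prod.mk.injEq] at h
    exact absurd h.2 (by simp)

lemma nb_inj (hs : ∀ j, s j ≠ 1) (v : G × Ty n) : Function.Injective (nb s v) := by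
  obtain ⟨g, t | ⟨j, b⟩⟩ := v
  · intro i k h
    exact tbl_inj t (emb_inj n (congrArg Prod.snd h))
  · have h01 : nb s (g, Sum.inr (j, b)) 0 ≠ nb s (g, Sum.inr (j, b)) 1 := fun h =>
      pr_ne_nx j b (congrArg Prod.snd h)
    have h02 : nb s (g, Sum.inr (j, b)) 0 ≠ nb s (g, Sum.inr (j, b)) 2 := fun h =>
      pr_ne_po j b (congrArg Prod.snd h)
    have h12 : nb s (g, Sum.inr (j, b)) 1 ≠ nb s (g, Sum.inr (j, b)) 2 := by
      intro h
      have h1 := congrArg Prod.fst h
      have hj := hs j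
      cases b <;> simp_all [nb, sh]
    intro i k h
    fin_cases i <;> fin_cases k
    · rfl
    · exact absurd h h01
    · exact absurd h h02
    · exact absurd h.symm h01
    · rfl
    · exact absurd h h12
    · exact absurd h.symm h02
    · exact absurd h.symm h12
    · rfl

lemma trivalent (hs : ∀ j, s j ≠ 1) : Trivalent (X s) := by
  intro v
  have h : (X s).neighborSet v = Set.range (nb s v) := by
    ext w
    simp [SimpleGraph.mem_neighborSet, adj_iff]
  rw [h, ← Set.image_univ, Set.ncard_image_of_injective _ (nb_inj s hs v), Set.ncard_univ,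
    Nat.card_fin]

lemma dd_nb (t : Ty n) (i : Fin 3) : dd (nbt t i) ≤ dd t + 1 ∧ dd t ≤ dd (nbt t i) + 1 := by
  obtain t | ⟨j, b⟩ := t
  · rcases h : tbl t i with u | b
    · have h1 : dd (nbt (Sum.inl t : Ty n) i) = (![0, 0, 1, 1, 1, 0, 0, 1, 0, 0] : Fin 10 → ℕ) u := by
        simp [nbt, h, emb, dd]
      rw [h1]
      have h2 : dd (Sum.inl t : Ty n) = (![0, 0, 1, 1, 1, 0, 0, 1, 0, 0] : Fin 10 → ℕ) t := rfl
      rw [h2]
      clear h1 h2
      revert t i u; decide
    · obtain ⟨rfl, rfl⟩ := tbl_inr t i b h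
      have h1 : dd (nbt (Sum.inl (tm b) : Ty n) 2) = 2 := by
        simp [nbt, h, emb, dd]
      have h2 : dd (Sum.inl (tm b) : Ty n) = 1 := by
        cases b <;> rfl
      omega
  · fin_cases i
    · by_cases h : j.val = 0
      · have h1 : dd (Sum.inl (tm b) : Ty n) = 1 := by cases b <;> rfl
        simp [nbt, pr, h, h1]
        simp [dd, h]
      · simp only [nbt, pr, h, if_false, dd]
        omega
    · by_cases h : j.val = n
      · simp [nbt, nx, h, dd]
      · simp only [nbt, nx, h, dite_false, dd]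
        omega
    · simp [nbt, dd]

lemma dd_down (t : Ty n) (h : 0 < dd t) : ∃ i, dd (nbt t i) + 1 = dd t := by
  obtain t | ⟨j, b⟩ := t
  · have h2 : dd (Sum.inl t : Ty n) = (![0, 0, 1, 1, 1, 0, 0, 1, 0, 0] : Fin 10 → ℕ) t := rfl
    rw [h2] at h ⊢
    have h3 : ∀ t : Fin 10, 0 < (![0, 0, 1, 1, 1, 0, 0, 1, 0, 0] : Fin 10 → ℕ) t →
        ∃ i u, tbl t i = Sum.inl u ∧ (![0, 0, 1, 1, 1, 0, 0, 1, 0, 0] : Fin 10 → ℕ) u + 1
          = (![0, 0, 1, 1, 1, 0, 0, 1, 0, 0] : Fin 10 → ℕ) t := by decide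
    obtain ⟨i, u, hi, hu⟩ := h3 t h
    refine ⟨i, ?_⟩
    have h1 : dd (nbt (Sum.inl t : Ty n) i) = (![0, 0, 1, 1, 1, 0, 0, 1, 0, 0] : Fin 10 → ℕ) u := by
      simp [nbt, hi, emb, dd]
    rw [h1, hu]
  · refine ⟨0, ?_⟩
    by_cases h : j.val = 0
    · have h1 : dd (Sum.inl (tm b) : Ty n) = 1 := by cases b <;> rfl
      simp [nbt, pr, h, h1]
      simp [dd, h]
    · simp only [nbt, pr, h, if_false, dd]
      omega

lemma nbt_symm (t : Ty n) (i : Fin 3) : ∃ k, nbt (nbt t i) k = t := by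
  obtain ⟨k, hk⟩ := nb_symm (G := Unit) (fun _ => 1) ((), t) i
  exact ⟨k, congrArg Prod.snd hk⟩

lemma no_tri01 (a : Fin (n + 1)) (b : Bool) (k : Fin 3) : nbt (pr a b) k ≠ nx a b := by
  intro h
  have ha := a.isLt
  by_cases h0 : a.val = 0
  · have h1 : pr a b = Sum.inl (tm b) := by simp [pr, h0]
    rw [h1] at h
    rcases hi : tbl (tm b) k with u | c
    · simp only [nbt, hi, emb, Sum.elim_inl, nx] at h
      split_ifs at h
    · obtain ⟨h2, rfl⟩ := tbl_inr _ k c hi
      have h3 : c = b := by cases b <;> cases c <;> simp_all [tm]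
      subst h3
      simp only [nbt, hi, emb, Sum.elim_inr, nx] at h
      split_ifs at h
      · simp at h
      · simp only [Sum.inr.injEq, Prod.mk.injEq, Fin.ext_iff, Fin.val_zero] at h
        omega
  · have h1 : pr a b = Sum.inr (⟨a.val - 1, by omega⟩, b) := by simp [pr, h0]
    rw [h1] at h
    fin_cases k
    · simp only [nbt, pr, nx] at h
      split_ifs at h
      · simp at h
      · simp only [Sum.inr.injEq, Prod.mk.injEq, Fin.mk.injEq] at h
        omega
    · simp only [nbt, nx] at h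
      split_ifs at h
      · omega
      · omega
      · simp at h
      · simp only [Sum.inr.injEq, Prod.mk.injEq, Fin.mk.injEq] at h
        omega
    · simp only [nbt, nx] at h
      split_ifs at h
      · simp only [Sum.inr.injEq, Prod.mk.injEq, Fin.ext_iff] at h
        omega
      · simp only [Sum.inr.injEq, Prod.mk.injEq, Fin.mk.injEq] at h
        omega

lemma no_tri02 (a : Fin (n + 1)) (b : Bool) (k : Fin 3) :
    nbt (pr a b) k ≠ Sum.inr (a, !b) := by
  intro h
  have ha := a.isLt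
  by_cases h0 : a.val = 0
  · have h1 : pr a b = Sum.inl (tm b) := by simp [pr, h0]
    rw [h1] at h
    rcases hi : tbl (tm b) k with u | c
    · simp [nbt, hi, emb] at h
    · obtain ⟨h2, rfl⟩ := tbl_inr _ k c hi
      have h3 : c = b := by cases b <;> cases c <;> simp_all [tm]
      subst h3
      simp [nbt, hi, emb] at h
  · have h1 : pr a b = Sum.inr (⟨a.val - 1, by omega⟩, b) := by simp [pr, h0]
    rw [h1] at h
    fin_cases k
    · simp only [nbt, pr] at h
      split_ifs at h
      · simp only [Sum.inr.injEq, Prod.mk.injEq, Fin.ext_iff] at h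
        omega
    · simp only [nbt, nx] at h
      split_ifs at h
      · omega
      · simp at h
    · simp only [nbt] at h
      simp only [Sum.inr.injEq, Prod.mk.injEq, Fin.ext_iff] at h
      omega

lemma no_tri12 (a : Fin (n + 1)) (b : Bool) (k : Fin 3) :
    nbt (nx a b) k ≠ Sum.inr (a, !b) := by
  intro h
  have ha := a.isLt
  by_cases h0 : a.val = n
  · have h1 : nx a b = Sum.inr (a, !b) := by simp [nx, h0]
    rw [h1] at h
    exact nbt_ne _ k h
  · have h1 : nx a b = Sum.inr (⟨a.val + 1, by omega⟩, b) := by simp [nx, h0]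
    rw [h1] at h
    fin_cases k
    · have h2 : ¬ (a.val + 1 = 0) := by omega
      simp only [nbt, pr, h2, if_false, Sum.inr.injEq, Prod.mk.injEq] at h
      exact absurd h.2 (by simp)
    · simp only [nbt, nx] at h
      split_ifs at h
      · simp only [Sum.inr.injEq, Prod.mk.injEq, Fin.ext_iff] at h
        omega
      · simp only [Sum.inr.injEq, Prod.mk.injEq, Fin.ext_iff] at h
        omega
    · simp only [nbt] at h
      simp only [Sum.inr.injEq, Prod.mk.injEq, Fin.ext_iff] at h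
      omega

/-- no triangle at a vertex of positive distance -/
lemma no_tri (t : Ty n) (h : dd t ≠ 0) (i j k : Fin 3) (hij : i ≠ j) :
    nbt (nbt t i) k ≠ nbt t j := by
  obtain t | ⟨a, b⟩ := t
  · have h2 : dd (Sum.inl t : Ty n) = (![0, 0, 1, 1, 1, 0, 0, 1, 0, 0] : Fin 10 → ℕ) t := rfl
    rw [h2] at h
    rcases hi : tbl t i with u | c
    · rcases hj : tbl t j with w | c
      · intro h'
        simp only [nbt, hi, hj, emb, Sum.elim_inl] at h'
        rcases hu : tbl u k with x | d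
        · simp only [hu, Sum.elim_inl, Sum.inl.injEq] at h'
          subst h'
          revert h hij hi hj hu
          clear h2
          revert t i j k u x; decide
        · simp [hu] at h'
      · intro h'
        obtain ⟨rfl, rfl⟩ := tbl_inr t j c hj
        simp only [nbt, hi, hj, emb, Sum.elim_inl, Sum.elim_inr] at h'
        rcases hu : tbl u k with x | d
        · simp [hu] at h'
        · obtain ⟨rfl, rfl⟩ := tbl_inr u k d hu
          simp only [hu, Sum.elim_inr, Sum.inr.injEq, Prod.mk.injEq, true_and] at h'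
          subst h'
          exact tbl_ne _ _ hi
    · obtain ⟨rfl, rfl⟩ := tbl_inr t i c hi
      rcases hj : tbl (tm c) j with w | c'
      · intro h'
        simp only [nbt, hi, hj, emb, Sum.elim_inl, Sum.elim_inr] at h'
        fin_cases k
        · simp only [pr, Fin.val_zero, if_true, Sum.inl.injEq] at h'
          subst h'
          exact tbl_ne _ _ hj
        · simp only [nx] at h'
          split_ifs at h'
        · simp at h'
      · obtain ⟨-, rfl⟩ := tbl_inr _ j c' hj
        exact absurd rfl hij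
  · intro h'
    have hsym : ∀ x y : Ty n, (∃ k, nbt x k = y) → ∃ k, nbt y k = x := by
      rintro x y ⟨k, rfl⟩
      exact nbt_symm x k
    have h01 := no_tri01 a b
    have h02 := no_tri02 a b
    have h12 := no_tri12 a b
    fin_cases i <;> fin_cases j
    · exact hij rfl
    · exact h01 k h'
    · exact h02 k h'
    · obtain ⟨k', hk'⟩ := hsym _ _ ⟨k, h'⟩
      exact h01 k' hk'
    · exact hij rfl
    · exact h12 k h'
    · obtain ⟨k', hk'⟩ := hsym _ _ ⟨k, h'⟩
      exact h02 k' hk'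
    · obtain ⟨k', hk'⟩ := hsym _ _ ⟨k, h'⟩
      exact h12 k' hk'
    · exact hij rfl


/-- vertices on a triangle -/
def Tri (v : G × Ty n) : Prop :=
  ∃ u w, (X s).Adj v u ∧ (X s).Adj v w ∧ (X s).Adj u w

lemma tri_iff (v : G × Ty n) : Tri s v ↔ dd v.2 = 0 := by
  constructor
  · rintro ⟨_, _, ⟨i, rfl⟩, ⟨j, rfl⟩, ⟨k, hk⟩⟩
    by_contra h
    have hij : i ≠ j := by
      rintro rfl
      exact nbt_ne _ k (congrArg Prod.snd hk)
    exact no_tri v.2 h i j k hij (congrArg Prod.snd hk)
  · intro h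
    obtain ⟨g, t | ⟨j, b⟩⟩ := v
    · have h2 : dd (Sum.inl t : Ty n) = (![0, 0, 1, 1, 1, 0, 0, 1, 0, 0] : Fin 10 → ℕ) t := rfl
      rw [h2] at h
      have h3 : ∀ t : Fin 10, (![0, 0, 1, 1, 1, 0, 0, 1, 0, 0] : Fin 10 → ℕ) t = 0 →
          ∃ i j k u w, tbl t i = Sum.inl u ∧ tbl t j = Sum.inl w ∧ tbl u k = Sum.inl w := by
        decide
      obtain ⟨i, j, k, u, w, h4, h5, h6⟩ := h3 t h
      refine ⟨(g, Sum.inl u), (g, Sum.inl w), ⟨i, ?_⟩, ⟨j, ?_⟩, ⟨k, ?_⟩⟩
      · simp [nb, nbt, sh, h4, emb]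
      · simp [nb, nbt, sh, h5, emb]
      · simp [nb, nbt, sh, h6, emb]
    · simp [dd] at h

lemma tri_map (φ : X s ≃g X s) (v : G × Ty n) (h : Tri s v) : Tri s (φ v) := by
  obtain ⟨u, w, h1, h2, h3⟩ := h
  exact ⟨φ u, φ w, φ.map_adj_iff.2 h1, φ.map_adj_iff.2 h2, φ.map_adj_iff.2 h3⟩

lemma dd_adj (v w : G × Ty n) (h : (X s).Adj v w) : dd w.2 ≤ dd v.2 + 1 := by
  obtain ⟨i, rfl⟩ := h
  exact (dd_nb v.2 i).1

lemma dd_le (φ : X s ≃g X s) (k : ℕ) : ∀ v : G × Ty n, dd v.2 = k → dd (φ v).2 ≤ k := by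
  induction k with
  | zero =>
    intro v hv
    exact ((tri_iff s _).1 (tri_map s φ v ((tri_iff s v).2 hv))).le
  | succ k ih =>
    intro v hv
    obtain ⟨i, hi⟩ := dd_down v.2 (by omega)
    have h1 : dd (nb s v i).2 = k := by
      change dd (nbt v.2 i) = k
      omega
    have h2 := ih _ h1
    have h3 : (X s).Adj (nb s v i) v := SimpleGraph.Adj.symm ⟨i, rfl⟩
    have h4 := dd_adj s _ _ (φ.map_adj_iff.2 h3)
    omega

lemma dd_inv (φ : X s ≃g X s) (v : G × Ty n) : dd (φ v).2 = dd v.2 := by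
  apply le_antisymm (dd_le s φ _ v rfl)
  have h := dd_le s φ.symm _ (φ v) rfl
  simpa using h

/-- invariant functions of the type -/
def Inv (F : Ty n → ℕ) : Prop := ∀ (φ : X s ≃g X s) (v : G × Ty n), F (φ v).2 = F v.2

/-- refinement -/
def stp (F : Ty n → ℕ) (t : Ty n) : ℕ := if dd t ≤ 1 then F t + ∑ i, F (nbt t i) else 0

lemma inv_stp (hs : ∀ j, s j ≠ 1) (F : Ty n → ℕ) (hF : Inv s F) : Inv s (stp F) := by
  intro φ v
  have h1 : ∀ i, ∃ k, nb s (φ v) k = φ (nb s v i) := by
    intro i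
    have : (X s).Adj v (nb s v i) := ⟨i, rfl⟩
    exact φ.map_adj_iff.2 this
  choose σ hσ using h1
  have hinj : Function.Injective σ := by
    intro a b hab
    have h2 := hσ a
    rw [hab, hσ b] at h2
    exact (nb_inj s hs v (φ.injective h2)).symm
  have hbij : Function.Bijective σ := Finite.injective_iff_bijective.1 hinj
  have h3 : ∑ i, F (nbt (φ v).2 i) = ∑ i, F (nbt v.2 i) := by
    rw [← hbij.sum_comp (fun i => F (nbt (φ v).2 i))]
    refine Finset.sum_congr rfl fun i _ => ?_
    have h4 := hF φ (nb s v i)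
    rw [← hσ i] at h4
    exact h4
  unfold stp
  rw [dd_inv s φ v, hF φ v, h3]

/-- extension by zero -/
def ex (n : ℕ) (f : Fin 10 → ℕ) : Ty n → ℕ := Sum.elim f (fun _ => 0)

/-- refinement of the table -/
def stpT (f : Fin 10 → ℕ) (t : Fin 10) : ℕ := f t + ∑ i, Sum.elim f (fun _ => 0) (tbl t i)

lemma stp_ex (f : Fin 10 → ℕ) : stp (ex n f) = ex n (stpT f) := by
  funext t
  obtain t | ⟨j, b⟩ := t
  · have h2 : dd (Sum.inl t : Ty n) = (![0, 0, 1, 1, 1, 0, 0, 1, 0, 0] : Fin 10 → ℕ) t := rfl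
    have h3 : ∀ t : Fin 10, (![0, 0, 1, 1, 1, 0, 0, 1, 0, 0] : Fin 10 → ℕ) t ≤ 1 := by decide
    have h4 : ∀ x, ex n f (emb n x) = Sum.elim f (fun _ => 0) x := by
      rintro (x | x) <;> rfl
    simp only [stp, h2, h3 t, if_true, ex, Sum.elim_inl, stpT, nbt]
    congr 1
    exact Finset.sum_congr rfl fun i _ => h4 _
  · simp [stp, dd, ex]

/-- the starting colours -/
def f0 : Fin 10 → ℕ := ![0, 0, 1, 1, 1, 0, 0, 1, 0, 0]

lemma inv_f0 : Inv s (ex n f0) := by
  have h : ∀ t : Ty n, ex n f0 t = if dd t = 1 then 1 else 0 := by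
    rintro (t | ⟨j, b⟩)
    · have h2 : dd (Sum.inl t : Ty n) = (![0, 0, 1, 1, 1, 0, 0, 1, 0, 0] : Fin 10 → ℕ) t := rfl
      rw [h2]
      clear h2
      simp only [ex, Sum.elim_inl]
      revert t; decide
    · simp [ex, dd]
  intro φ v
  rw [h, h, dd_inv s φ v]

lemma inv_f3 (hs : ∀ j, s j ≠ 1) : Inv s (ex n (stpT (stpT (stpT f0)))) := by
  rw [← stp_ex, ← stp_ex, ← stp_ex]
  exact inv_stp s hs _ (inv_stp s hs _ (inv_stp s hs _ (inv_f0 s)))

lemma f3_pos : ∀ t, stpT (stpT (stpT f0)) t ≠ 0 := by decide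

lemma f3_inj : ∀ t u, stpT (stpT (stpT f0)) t = stpT (stpT (stpT f0)) u → t = u := by decide

/-- automorphisms keep the types of the vertices of the gadgets -/
lemma typ (hs : ∀ j, s j ≠ 1) (φ : X s ≃g X s) (g : G) (t : Fin 10) :
    (φ (g, Sum.inl t)).2 = Sum.inl t := by
  have h := inv_f3 s hs φ (g, Sum.inl t)
  rcases h1 : (φ (g, Sum.inl t)).2 with u | x
  · rw [h1] at h
    simp only [ex, Sum.elim_inl] at h
    rw [f3_inj _ _ h]
  · rw [h1] at h
    simp only [ex, Sum.elim_inl, Sum.elim_inr] at h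
    exact absurd h.symm (f3_pos t)

lemma ex_nb (φ : X s ≃g X s) (v : G × Ty n) (i : Fin 3) : ∃ k, nb s (φ v) k = φ (nb s v i) := by
  have h : (X s).Adj v (nb s v i) := ⟨i, rfl⟩
  exact φ.map_adj_iff.2 h

lemma fst_eq (hs : ∀ j, s j ≠ 1) (φ : X s ≃g X s) (g : G) (t u : Fin 10) (i : Fin 3)
    (h : tbl t i = Sum.inl u) : (φ (g, Sum.inl u)).1 = (φ (g, Sum.inl t)).1 := by
  obtain ⟨k, hk⟩ := ex_nb s φ (g, Sum.inl t) i
  have h1 : nb s (g, Sum.inl t) i = (g, Sum.inl u) := by
    simp [nb, nbt, sh, h, emb]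
  rw [h1] at hk
  rw [← hk]
  have h2 := typ s hs φ g t
  simp [nb, h2, sh]

/-- the induced map on the group -/
def pp (φ : X s ≃g X s) (g : G) : G := (φ (g, Sum.inl 0)).1

lemma map_gad (hs : ∀ j, s j ≠ 1) (φ : X s ≃g X s) (g : G) (t : Fin 10) :
    φ (g, Sum.inl t) = (pp s φ g, Sum.inl t) := by
  have h := fun t u i => fst_eq s hs φ g t u i
  have h0 : ∀ t, (φ (g, Sum.inl t)).1 = pp s φ g := by
    have e1 := h 0 1 0 rfl
    have e3 := h 0 3 1 rfl
    have e5 := h 0 5 2 rfl
    have e2 := (h 1 2 1 rfl).trans e1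
    have e4 := (h 5 4 2 rfl).trans e5
    have e6 := (h 2 6 1 rfl).trans e2
    have e7 := (h 2 7 2 rfl).trans e2
    have e8 := (h 4 8 1 rfl).trans e4
    have e9 := (h 6 9 2 rfl).trans e6
    intro t
    fin_cases t
    · rfl
    · exact e1
    · exact e2
    · exact e3
    · exact e4
    · exact e5
    · exact e6
    · exact e7
    · exact e8
    · exact e9
  exact Prod.ext (h0 t) (typ s hs φ g t)

lemma map_spine (hs : ∀ j, s j ≠ 1) (φ : X s ≃g X s) (g : G) (b : Bool) (k : ℕ) :
    ∀ hk : k < n + 1, φ (g, Sum.inr (⟨k, hk⟩, b)) = (pp s φ g, Sum.inr (⟨k, hk⟩, b)) := by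
  induction k with
  | zero =>
    intro hk
    obtain ⟨i, hi⟩ := ex_nb s φ (g, Sum.inl (tm b)) 2
    have h1 : nb s (g, Sum.inl (tm b)) 2 = (g, Sum.inr (⟨0, hk⟩, b)) := by
      simp [nb, nbt, sh, tbl_tm, emb]
    rw [h1, map_gad s hs φ g] at hi
    have h2 := dd_inv s φ (g, Sum.inr (⟨0, hk⟩, b))
    rw [← hi] at h2 ⊢
    have h3 : ∀ (b : Bool) (i : Fin 3), i = 2 ∨ ∃ u, tbl (tm b) i = Sum.inl u := by decide
    rcases h3 b i with rfl | ⟨u, hu⟩
    · simp [nb, nbt, sh, tbl_tm, emb]
    · exfalso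
      simp only [nb, nbt, hu, emb, Sum.elim_inl, dd] at h2
      revert h2
      clear hi h1 hu
      revert u; decide
  | succ k ih =>
    intro hk
    have hk' : k < n + 1 := by omega
    obtain ⟨i, hi⟩ := ex_nb s φ (g, Sum.inr (⟨k, hk'⟩, b)) 1
    have hkn : ¬ (k = n) := by omega
    have h1 : nb s (g, Sum.inr (⟨k, hk'⟩, b)) 1 = (g, Sum.inr (⟨k + 1, hk⟩, b)) := by
      simp [nb, nbt, sh, nx, hkn]
    rw [h1, ih hk'] at hi
    have h2 := dd_inv s φ (g, Sum.inr (⟨k + 1, hk⟩, b))
    rw [← hi] at h2 ⊢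
    fin_cases i
    · exfalso
      simp only [Fin.zero_eta, nb, nbt, pr] at h2
      by_cases h0 : k = 0
      · have h4 : dd (Sum.inl (tm b) : Ty n) = 1 := by cases b <;> rfl
        rw [if_pos h0, h4] at h2
        simp [dd] at h2
      · rw [if_neg h0] at h2
        simp only [dd] at h2
        omega
    · simp [nb, nbt, sh, nx, hkn]
    · exfalso
      simp [nb, nbt, dd] at h2

lemma map_all (hs : ∀ j, s j ≠ 1) (φ : X s ≃g X s) (g : G) (t : Ty n) :
    φ (g, t) = (pp s φ g, t) := by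
  obtain t | ⟨⟨k, hk⟩, b⟩ := t
  · exact map_gad s hs φ g t
  · exact map_spine s hs φ g b k hk

lemma pp_mul (hs : ∀ j, s j ≠ 1) (φ : X s ≃g X s) (g : G) (j : Fin (n + 1)) :
    pp s φ (g * s j) = pp s φ g * s j := by
  obtain ⟨i, hi⟩ := ex_nb s φ (g, Sum.inr (j, false)) 2
  have h1 : nb s (g, Sum.inr (j, false)) 2 = (g * s j, Sum.inr (j, true)) := by
    simp [nb, nbt, sh]
  rw [h1, map_all s hs φ, map_all s hs φ] at hi
  fin_cases i
  · exact absurd (congrArg Prod.snd hi) (pr_ne_po j false)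
  · exfalso
    have h2 : pp s φ g = pp s φ (g * s j) := by
      have := congrArg Prod.fst hi
      simpa [nb, sh] using this
    have h3 : φ (g, Sum.inl 0) = φ (g * s j, Sum.inl 0) := by
      rw [map_all s hs φ, map_all s hs φ, h2]
    have h4 := congrArg Prod.fst (φ.injective h3)
    exact hs j (by simpa using h4)
  · have := congrArg Prod.fst hi
    simpa [nb, sh] using this.symm

lemma pp_eq (hs : ∀ j, s j ≠ 1) (hgen : Subgroup.closure (Set.range s) = ⊤) (φ : X s ≃g X s)
    (x : G) : ∀ g, pp s φ (g * x) = pp s φ g * x := by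
  have hx : x ∈ Subgroup.closure (Set.range s) := by rw [hgen]; trivial
  induction hx using Subgroup.closure_induction with
  | mem x hx =>
    obtain ⟨j, rfl⟩ := hx
    exact fun g => pp_mul s hs φ g j
  | one => intro g; simp
  | mul x y _ _ ihx ihy =>
    intro g
    rw [← mul_assoc, ihy, ihx, mul_assoc]
  | inv x _ ih =>
    intro g
    have h := ih (g * x⁻¹)
    rw [inv_mul_cancel_right] at h
    rw [h, mul_inv_cancel_right]

/-- left multiplication -/
def act (h : G) : X s ≃g X s where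
  toFun v := (h * v.1, v.2)
  invFun v := (h⁻¹ * v.1, v.2)
  left_inv v := by simp
  right_inv v := by simp
  map_rel_iff' := by
    intro v w
    constructor
    · rintro ⟨i, hi⟩
      refine ⟨i, ?_⟩
      have h1 := congrArg Prod.fst hi
      have h2 := congrArg Prod.snd hi
      refine Prod.ext ?_ h2
      have h3 : h * v.1 * sh s v.2 i = h * w.1 := h1
      rw [mul_assoc] at h3
      exact mul_left_cancel h3
    · rintro ⟨i, rfl⟩
      exact ⟨i, Prod.ext (mul_assoc _ _ _) rfl⟩

/-- left multiplication as a homomorphism -/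
def actHom : G →* (X s ≃g X s) where
  toFun := act s
  map_one' := by
    ext v
    · simp [act]
    · rfl
  map_mul' a b := by
    ext v
    · simp [act, mul_assoc]
    · rfl

lemma act_bij (hs : ∀ j, s j ≠ 1) (hgen : Subgroup.closure (Set.range s) = ⊤) :
    Function.Bijective (actHom s) := by
  constructor
  · intro a b h
    have h1 := congrArg (fun φ : X s ≃g X s => (φ (1, Sum.inl 0)).1) h
    simpa [actHom, act] using h1
  · intro φ
    refine ⟨pp s φ 1, ?_⟩
    apply RelIso.ext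
    rintro ⟨g, t⟩
    rw [map_all s hs φ]
    have h := pp_eq s hs hgen φ g 1
    rw [one_mul] at h
    rw [h]
    rfl

/-- the representation -/
theorem mem_orders [Finite G] (hs : ∀ j, s j ≠ 1) (hgen : Subgroup.closure (Set.range s) = ⊤) :
    Nat.card G * (2 * (n + 1) + 10) ∈ orders G := by
  refine ⟨G × Ty n, inferInstance, X s, trivalent s hs,
    ⟨(MulEquiv.ofBijective (actHom s) (act_bij s hs hgen)).symm⟩, ?_⟩
  rw [Nat.card_prod]
  congr 1
  rw [Nat.card_sum, Nat.card_prod, Nat.card_fin, Nat.card_fin]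
  have : Nat.card Bool = 2 := by simp
  rw [this]
  omega

theorem mem_orders_rank (G : Type) [Group G] [Finite G] (h : 0 < Group.rank G) :
    Nat.card G * (2 * Group.rank G + 10) ∈ orders G := by
  classical
  obtain ⟨S, hS1, hS2⟩ := Group.rank_spec G
  have h1 : (1 : G) ∉ S := by
    intro h1
    have h2 : Subgroup.closure ((S.erase 1 : Finset G) : Set G) = ⊤ := by
      rw [eq_top_iff, ← hS2, Subgroup.closure_le]
      intro x hx
      by_cases hx1 : x = 1
      · rw [hx1]; exact one_mem _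
      · exact Subgroup.subset_closure (by simpa [hx1] using hx)
    have h3 := Group.rank_le h2
    have h4 := Finset.card_erase_lt_of_mem h1
    omega
  obtain ⟨m, hm⟩ : ∃ m, Group.rank G = m + 1 := ⟨Group.rank G - 1, by omega⟩
  have hc : S.card = m + 1 := by omega
  let e : Fin (m + 1) ≃ S := (Finset.equivFinOfCardEq hc).symm
  have hr : Set.range (fun j => (e j : G)) = (S : Set G) := by
    ext x
    constructor
    · rintro ⟨j, rfl⟩
      exact (e j).2
    · intro hx
      exact ⟨e.symm ⟨x, hx⟩, by simp⟩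
  rw [hm]
  refine mem_orders (fun j => (e j : G)) ?_ ?_
  · intro j hj
    apply h1
    rw [← hj]
    exact (e j).2
  · rw [hr, hS2]

/-- **Q1: yes.** Every finite group with `d(G) ≥ 1` satisfies `v³(G) ≤ n (2 d + 10)`; hence for
every `ε > 0` all finite groups with large `d(G)` satisfy `v³(G) < (2 + ε) n d`. -/
theorem result :
    (∀ (G : Type) [Group G] [Finite G], 0 < Group.rank G →
      (orders G).Nonempty ∧ v3 G ≤ Nat.card G * (2 * Group.rank G + 10)) ∧
    (∀ ε : ℝ, 0 < ε → ∃ D : ℕ, ∀ (G : Type) [Group G] [Finite G], D < Group.rank G →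
      (orders G).Nonempty ∧
        (v3 G : ℝ) < (2 + ε) * (Nat.card G : ℝ) * (Group.rank G : ℝ)) := by
  have h1 : ∀ (G : Type) [Group G] [Finite G], 0 < Group.rank G →
      (orders G).Nonempty ∧ v3 G ≤ Nat.card G * (2 * Group.rank G + 10) := by
    intro G _ _ h
    have h2 := mem_orders_rank G h
    exact ⟨⟨_, h2⟩, Nat.sInf_le h2⟩
  refine ⟨h1, ?_⟩
  intro ε hε
  obtain ⟨D, hD⟩ := exists_nat_gt (10 / ε)
  refine ⟨D, ?_⟩
  intro G _ _ hG
  obtain ⟨h2, h3⟩ := h1 G (by omega)
  refine ⟨h2, ?_⟩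
  have h4 : (v3 G : ℝ) ≤ (Nat.card G : ℝ) * (2 * (Group.rank G : ℝ) + 10) := by
    exact_mod_cast h3
  have h5 : (0 : ℝ) < (Nat.card G : ℝ) := by
    exact_mod_cast Nat.card_pos
  have h6 : (D : ℝ) < (Group.rank G : ℝ) := by exact_mod_cast hG
  have h7 : 10 < ε * (Group.rank G : ℝ) := by
    have h8 : 10 / ε < (Group.rank G : ℝ) := hD.trans h6
    rw [div_lt_iff₀ hε] at h8
    linarith
  calc (v3 G : ℝ) ≤ (Nat.card G : ℝ) * (2 * (Group.rank G : ℝ) + 10) := h4
    _ < (Nat.card G : ℝ) * ((2 + ε) * (Group.rank G : ℝ)) := by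
        apply mul_lt_mul_of_pos_left _ h5
        linarith
    _ = (2 + ε) * (Nat.card G : ℝ) * (Group.rank G : ℝ) := by ring

end Pool.Agent.Results.MP_b549f0_co.TwoPlusEpsilon
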